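import Pool.Agent.Y83.NP.Tz

/-! Pairs of polynomials with constant nonzero bracket whose Newton polygons are the trapezoids of
`MP_2d59ee_ag` do not generate the polynomial ring. -/

set_option autoImplicit false

open MvPolynomial Pool.Agent.H938R2.JC Pool.Agent.W443.J5 Pool.Agent.W443.J6

namespace Pool.Agent.R470.Keller

theorem good_sw {k : Type*} [Field k] [CharZero k] {f g : MvPolynomial (Fin 2) k}
    (h : Good f g) : Good (sw f) (sw g) := by
  unfold Good at *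
  have h1 : Algebra.adjoin k {sw f, sw g} =
      (Algebra.adjoin k {f, g}).map ((sw : MvPolynomial (Fin 2) k ≃ₐ[k] _) : _ →ₐ[k] _) := by
    rw [AlgHom.map_adjoin]
    congr 1
    simp [Set.image_pair]
  rw [h1, h, Algebra.map_top, AlgHom.range_eq_top]
  exact (sw : MvPolynomial (Fin 2) k ≃ₐ[k] _).surjective

theorem good_of_inv {k : Type*} [Field k] {f g : MvPolynomial (Fin 2) k}
    (h : ∃ G : Fin 2 → MvPolynomial (Fin 2) k, ∀ i, aeval ![f, g] (G i) = X i) : Good f g := by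
  obtain ⟨G, hG⟩ := h
  unfold Good
  have hr : ({f, g} : Set (MvPolynomial (Fin 2) k)) = Set.range ![f, g] := by
    ext x
    simp only [Set.mem_range, Fin.exists_fin_two, Set.mem_insert_iff, Set.mem_singleton_iff,
      Matrix.cons_val_zero, Matrix.cons_val_one]
    rw [eq_comm (a := f), eq_comm (a := g)]
  rw [hr, Algebra.adjoin_range_eq_range_aeval, eq_top_iff, ← MvPolynomial.adjoin_range_X,
    Algebra.adjoin_le_iff]
  rintro _ ⟨i, rfl⟩
  exact ⟨G i, hG i⟩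

/-- the pair is not a pair of generators -/
theorem tz_not_good (a b m n : ℕ) (hm : 0 < m) (hn : 0 < n) (ham : a ∣ m) (han : a ∣ n)
    (hab : Nat.gcd a b = 1) (ha : 2 ≤ a) (hb : 2 ≤ b)
    (F G : MvPolynomial (Fin 2) ℂ)
    (h1 : convexHull ℝ (insert ((0:ℝ), (0:ℝ))
        ((fun d : Fin 2 →₀ ℕ => ((d 0 : ℝ), (d 1 : ℝ))) '' (↑F.support : Set (Fin 2 →₀ ℕ))))
        = {p : ℝ × ℝ | 0 ≤ p.2 ∧ p.2 ≤ (n : ℝ) ∧ 0 ≤ p.1 ∧ p.1 ≤ (m : ℝ) + (n : ℝ) - p.2})
    (h4 : convexHull ℝ (insert ((0:ℝ), (0:ℝ))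
        ((fun d : Fin 2 →₀ ℕ => ((d 0 : ℝ), (d 1 : ℝ))) '' (↑G.support : Set (Fin 2 →₀ ℕ))))
        = {p : ℝ × ℝ | 0 ≤ p.2 ∧ p.2 ≤ ((b * n / a : ℕ) : ℝ) ∧ 0 ≤ p.1 ∧
            p.1 ≤ ((b * m / a : ℕ) : ℝ) + ((b * n / a : ℕ) : ℝ) - p.2})
    {c : ℂ} (hc0 : c ≠ 0)
    (hc : pderiv 0 F * pderiv 1 G - pderiv 1 F * pderiv 0 G = C c) : ¬ Good F G := by
  obtain ⟨p, rfl⟩ := ham
  obtain ⟨q, rfl⟩ := han
  have ha0 : 0 < a := by omega
  have hp : 0 < p := Nat.pos_of_ne_zero (by rintro rfl; simp at hm)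
  have hq : 0 < q := Nat.pos_of_ne_zero (by rintro rfl; simp at hn)
  have e1 : b * (a * q) / a = b * q := by
    have : b * (a * q) = b * q * a := by ring
    rw [this, Nat.mul_div_cancel _ ha0]
  have e2 : b * (a * p) / a = b * p := by
    have : b * (a * p) = b * p * a := by ring
    rw [this, Nat.mul_div_cancel _ ha0]
  rw [e1, e2] at h4
  obtain ⟨f1, f2⟩ := Pool.Agent.TH207.Tz.hull (Nat.mul_pos ha0 hq) h1
  obtain ⟨g1, g2⟩ := Pool.Agent.TH207.Tz.hull (Nat.mul_pos (by omega) hq) h4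
  obtain ⟨hbad, -⟩ := Pool.Agent.Y83.NP.data ha hb hab hp hq hc0 hc f1 f2 g1 g2
  exact fun h => hbad.2 (good_sw h)

/-- the Jacobian matrix of the pair has a unit as determinant -/
theorem det_unit {k : Type*} [Field k] (F : Fin 2 → MvPolynomial (Fin 2) k) {c : k} (hc : c ≠ 0)
    (h : pderiv 0 (F 0) * pderiv 1 (F 1) - pderiv 1 (F 0) * pderiv 0 (F 1) = C c) :
    IsUnit (Matrix.of fun i j => pderiv j (F i)).det := by
  rw [Matrix.det_fin_two]
  have : (Matrix.of fun i j => pderiv j (F i)) 0 0 * (Matrix.of fun i j => pderiv j (F i)) 1 1 -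
      (Matrix.of fun i j => pderiv j (F i)) 0 1 * (Matrix.of fun i j => pderiv j (F i)) 1 0 = C c := by
    rw [← h]
    simp only [Matrix.of_apply]
  rw [this]
  exact (isUnit_iff_ne_zero.2 hc).map C

end Pool.Agent.R470.Keller
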